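import Pool.Agent.R934.PF.Piece

set_option autoImplicit false

/-! From a dense piece in a convex set of arbitrary dimension to a covering by few translates of a
symmetric convex progression. -/

open scoped Pointwise

namespace Pool.Agent.R934.PF

open Pool.Agent.TH198.DC

theorem FInj.two {n : ℕ} {Γ : Type*} [AddCommGroup Γ] {φ : (Fin n → ℤ) →+ Γ}
    {S : Finset (Fin n → ℤ)} (h : FInj 2 φ S) {a b c e : Fin n → ℤ} (ha : a ∈ S) (hb : b ∈ S)
    (hc : c ∈ S) (he : e ∈ S) (heq : φ (a + b) = φ (c + e)) : a + b = c + e := by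
  have h1 := h ![a, b] ![c, e] (by intro i; fin_cases i <;> assumption)
    (by intro i; fin_cases i <;> assumption)
  simp only [Fin.sum_univ_two, Matrix.cons_val_zero, Matrix.cons_val_one] at h1
  exact h1 heq

/-- **From a piece to a covering.** -/
theorem cover_of_piece {n : ℕ} {Γ : Type*} [AddCommGroup Γ] [DecidableEq Γ] {K M : ℝ} {A : Finset Γ}
    (hA : A.Nonempty) (hK : ((A + A).card : ℝ) ≤ K * A.card) (S : Finset (Fin n → ℤ))
    (φ : (Fin n → ℤ) →+ Γ) (t : Γ) (hφ : FInj 2 φ S) (hSA : ∀ s ∈ S, t + φ s ∈ A)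
    (hM : (A.card : ℝ) ≤ M * S.card) {C : Set (Fin n → ℝ)} (hC : Convex ℝ C)
    (hCf : (LP C).Finite) (hSC : ∀ s ∈ S, s ∈ LP C) (hL : ((LP C).ncard : ℝ) ≤ M * S.card) :
    ∃ (d : ℕ) (B : Set (Fin d → ℝ)) (ψ : (Fin d → ℤ) →+ Γ) (T : Finset Γ),
      (d : ℝ) ≤ 480 * Real.log (K * M) + 1 ∧ SB B ∧ (LP B).ncard ≤ A.card ∧
      (T.card : ℝ) ≤ (2 * (K * M)) ^ 4200 ∧ ∀ a ∈ A, ∃ t ∈ T, ∃ x ∈ LP B, a = t + ψ x := by
  classical
  have hAc : (0 : ℝ) < A.card := by exact_mod_cast hA.card_pos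
  have hSne : S.Nonempty := by
    rw [← Finset.card_pos]
    by_contra h
    have : S.card = 0 := by omega
    rw [this, Nat.cast_zero, mul_zero] at hM
    linarith
  have hinj : Set.InjOn (fun s => t + φ s) (S : Set (Fin n → ℤ)) := by
    intro x hx y hy hxy
    have h1 : φ x = φ y := add_left_cancel (hxy : t + φ x = t + φ y)
    have h3 : x + x = x + y := hφ.two hx hx hx hy (by rw [map_add, map_add, h1])
    exact add_left_cancel h3
  have hSAc : (S.card : ℝ) ≤ A.card := by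
    exact_mod_cast Finset.card_le_card_of_injOn (fun s => t + φ s) (fun s hs => hSA s hs) hinj
  have hSc : (0 : ℝ) < S.card := by exact_mod_cast hSne.card_pos
  have hM1 : 1 ≤ M := by
    by_contra h
    push Not at h
    nlinarith
  have hK1 : 1 ≤ K := by
    have h1 : (A.card : ℝ) ≤ (A + A).card := by
      exact_mod_cast Finset.card_le_card_add_right hA
    by_contra h
    nlinarith
  have hKM1 : 1 ≤ K * M := by nlinarith
  -- the doubling of `S`
  have hSS : (S + S : Finset (Fin n → ℤ)).card ≤ (A + A).card := by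
    refine Finset.card_le_card_of_injOn (fun z => t + t + φ z) ?_ ?_
    · intro z hz
      obtain ⟨x, hx, y, hy, rfl⟩ := Finset.mem_add.1 (Finset.mem_coe.1 hz)
      rw [Finset.mem_coe]
      show t + t + φ (x + y) ∈ A + A
      rw [map_add, show t + t + (φ x + φ y) = (t + φ x) + (t + φ y) by abel]
      exact Finset.add_mem_add (hSA x hx) (hSA y hy)
    · intro z hz w hw hzw
      obtain ⟨x, hx, y, hy, rfl⟩ := Finset.mem_add.1 (Finset.mem_coe.1 hz)
      obtain ⟨x', hx', y', hy', rfl⟩ := Finset.mem_add.1 (Finset.mem_coe.1 hw)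
      exact hφ.two hx hy hx' hy' (add_left_cancel (hzw : t + t + φ (x + y) = t + t + φ (x' + y')))
  have hKS : ((S + S : Finset (Fin n → ℤ)).card : ℝ) ≤ (K * M) * (S.card : ℝ) := by
    have h1 : ((S + S : Finset (Fin n → ℤ)).card : ℝ) ≤ (A + A).card := by exact_mod_cast hSS
    calc ((S + S : Finset (Fin n → ℤ)).card : ℝ) ≤ K * A.card := h1.trans hK
      _ ≤ K * (M * S.card) := by gcongr
      _ = _ := by ring
  obtain ⟨d, ψ, B, R, t', hd, hψ, hB, hBC, hRS, hRB, hRne, hRc⟩ := sym_slice hSne hKS hC hCf hSC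
  -- the first covering
  set U := R.image fun z => t + φ (t' + ψ z) with hU
  have hUc : U.card = R.card := Finset.card_image_of_injOn (by
    intro z hz w hw hzw
    have h1 : t' + ψ z = t' + ψ w := hinj (Finset.mem_coe.2 (hRS z hz)) (Finset.mem_coe.2 (hRS w hw)) hzw
    exact hψ (add_left_cancel h1))
  have hUA : U ⊆ A := by
    intro x hx
    obtain ⟨z, hz, rfl⟩ := Finset.mem_image.1 hx
    exact hSA _ (hRS z hz)
  set Q : ℝ := K * M with hQ
  have hQ0 : 0 < Q := by linarith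
  have hSU : ((A + U).card : ℝ) ≤ (4 ^ d * Q ^ 372) * U.card := by
    have h1 : ((A + U).card : ℝ) ≤ (A + A).card := by
      exact_mod_cast Finset.card_le_card (Finset.add_subset_add_left hUA)
    rw [hUc]
    calc ((A + U).card : ℝ) ≤ K * A.card := h1.trans hK
      _ ≤ K * (M * S.card) := by gcongr
      _ = Q * S.card := by rw [hQ]; ring
      _ ≤ Q * (4 ^ d * Q ^ 371 * R.card) := by gcongr
      _ = (4 ^ d * Q ^ 372) * R.card := by ring
  obtain ⟨X1, hX1S, hX1c, hX1⟩ := Finset.ruzsa_covering_add (hRne.image _) hSU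
  -- the second covering
  obtain ⟨B', hB', hB'c, X2, hX2c, hX2⟩ := hB.shrink (N := A.card) hA.card_pos
  have hX2c' : (X2.card : ℝ) ≤ 625 ^ d * Q := by
    have h1 : (X2.card : ℝ) * A.card ≤ 625 ^ d * (max A.card (LP B).ncard : ℕ) := by
      exact_mod_cast hX2c
    have h2 : ((max A.card (LP B).ncard : ℕ) : ℝ) ≤ Q * A.card := by
      rw [Nat.cast_max]
      refine max_le (by nlinarith) ?_
      have h3 : ((LP B).ncard : ℝ) ≤ (LP C).ncard := by exact_mod_cast hBC
      calc ((LP B).ncard : ℝ) ≤ M * S.card := h3.trans hL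
        _ ≤ M * A.card := by gcongr
        _ ≤ Q * A.card := by
          gcongr
          rw [hQ]
          nlinarith
    have h3 : (X2.card : ℝ) * A.card ≤ (625 ^ d * Q) * A.card := by
      calc (X2.card : ℝ) * A.card ≤ 625 ^ d * (max A.card (LP B).ncard : ℕ) := h1
        _ ≤ 625 ^ d * (Q * A.card) := by gcongr
        _ = (625 ^ d * Q) * A.card := by ring
    exact le_of_mul_le_mul_right h3 hAc
  clear_value Q
  refine ⟨d, B', φ.comp ψ, X1 + X2.image (φ.comp ψ), hd, hB', hB'c, ?_, ?_⟩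
  · have h1 : ((X1 + X2.image (φ.comp ψ) : Finset Γ).card : ℝ) ≤ X1.card * X2.card := by
      have h2 : (X1 + X2.image (φ.comp ψ) : Finset Γ).card ≤ X1.card * X2.card :=
        Finset.card_add_le.trans (Nat.mul_le_mul_left _ Finset.card_image_le)
      exact_mod_cast h2
    calc ((X1 + X2.image (φ.comp ψ) : Finset Γ).card : ℝ) ≤ X1.card * X2.card := h1
      _ ≤ (4 ^ d * Q ^ 372) * (625 ^ d * Q) := by gcongr
      _ = 2500 ^ d * Q ^ 373 := by
        rw [show (2500 : ℝ) = 4 * 625 by norm_num, mul_pow]; ring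
      _ ≤ (2500 * Q ^ 3771) * Q ^ 373 := by
        gcongr
        exact pow2500 hKM1 hd
      _ = 2500 * Q ^ 4144 := by ring
      _ ≤ 2 ^ 4200 * Q ^ 4200 := by
        gcongr
        · calc (2500 : ℝ) ≤ 2 ^ 12 := by norm_num
            _ ≤ 2 ^ 4200 := pow_le_pow_right₀ (by norm_num) (by norm_num)
        · norm_num
      _ = (2 * Q) ^ 4200 := by rw [mul_pow]
  · intro a ha
    obtain ⟨x1, hx1, u, hu, hxu⟩ := Finset.mem_add.1 (hX1 ha)
    obtain ⟨p, hp, q, hq, hpq⟩ := Finset.mem_sub.1 hu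
    obtain ⟨z, hz, rfl⟩ := Finset.mem_image.1 hp
    obtain ⟨w, hw, rfl⟩ := Finset.mem_image.1 hq
    obtain ⟨x2, hx2, v, hv, hzw⟩ := hX2 _ (hRB z hz w hw)
    refine ⟨x1 + φ.comp ψ x2, Finset.add_mem_add hx1 (Finset.mem_image_of_mem _ hx2), v, hv, ?_⟩
    have h5 : φ (ψ z) - φ (ψ w) = φ (ψ x2) + φ (ψ v) := by
      rw [← map_sub, ← map_sub, hzw, map_add, map_add]
    rw [← hxu, ← hpq, AddMonoidHom.comp_apply, AddMonoidHom.comp_apply, add_assoc, ← h5, map_add,
      map_add]
    abel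

end Pool.Agent.R934.PF
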