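import Pool.Agent.R934.PF.Back

set_option autoImplicit false

/-! Pieces of `q A + {0, ..., N - 1}` give pieces of `A`. -/

open scoped Pointwise

namespace Pool.Agent.R934.PF

open Pool.Agent.TH198.DC

/-- parametrisation of a subgroup of `ℤ ^ n` -/
theorem param {n : ℕ} (M : Submodule ℤ (Fin n → ℤ)) :
    ∃ (d : ℕ) (ψ : (Fin d → ℤ) →+ (Fin n → ℤ)), Function.Injective ψ ∧
      ∀ x, x ∈ M ↔ ∃ z, ψ z = x := by
  let b := Module.finBasis ℤ M
  refine ⟨Module.finrank ℤ M, (M.subtype ∘ₗ b.equivFun.symm.toLinearMap).toAddMonoidHom, ?_, ?_⟩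
  · intro x y hxy
    have h1 : (b.equivFun.symm x : Fin n → ℤ) = b.equivFun.symm y := hxy
    exact b.equivFun.symm.injective (Subtype.ext h1)
  · intro x
    constructor
    · intro hxM
      refine ⟨b.equivFun ⟨x, hxM⟩, ?_⟩
      show ((b.equivFun.symm (b.equivFun ⟨x, hxM⟩) : M) : Fin n → ℤ) = x
      rw [LinearEquiv.symm_apply_apply]
    · rintro ⟨z, rfl⟩
      exact (b.equivFun.symm z).2

/-- the convex hull of a finite set of lattice points -/
def hull {n : ℕ} (S : Finset (Fin n → ℤ)) : Set (Fin n → ℝ) := convexHull ℝ (rv '' (S : Set (Fin n → ℤ)))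

theorem hull_fin {n : ℕ} (S : Finset (Fin n → ℤ)) : (LP (hull S)).Finite :=
  LP_finite (((S.finite_toSet.image rv).isCompact_convexHull (𝕜 := ℝ)).isBounded)

theorem mem_hull {n : ℕ} {S : Finset (Fin n → ℤ)} {s : Fin n → ℤ} (hs : s ∈ S) : s ∈ LP (hull S) :=
  subset_convexHull ℝ _ ⟨s, hs, rfl⟩

/-- `A` has a piece with constant `M`: a set of lattice points (in any dimension), Freiman
isomorphic to a subset of `A` of proportion `1 / M`, with proportion `1 / M` in its convex hull. -/
def Piece (M : ℝ) (A : Finset ℤ) : Prop :=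
  ∃ (n : ℕ) (S : Finset (Fin n → ℤ)) (φ : (Fin n → ℤ) →+ ℤ) (t : ℤ),
    FInj 2 φ S ∧ (∀ s ∈ S, t + φ s ∈ A) ∧ (A.card : ℝ) ≤ M * S.card ∧
    ((LP (hull S)).ncard : ℝ) ≤ M * S.card

/-- **Slices.** -/
theorem piece_slice {M : ℝ} {A : Finset ℤ} (hA : A.Nonempty) {q N : ℕ} (hN : 0 < N) (hNq : N ≤ q)
    (h : Piece M (Finset.image₂ (fun (a : ℤ) (j : ℕ) => a * q + j) A (Finset.range N))) :
    Piece (2 * M) A := by
  classical
  obtain ⟨n, S, φ, t, hφ, hSA, hM, hL⟩ := h
  have hq : 0 < q := by omega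
  have hqz : (q : ℤ) ≠ 0 := by exact_mod_cast hq.ne'
  have hAc : (0 : ℝ) < A.card := by exact_mod_cast hA.card_pos
  have hmod : ∀ (a : ℤ) (j : ℕ), j < N → (a * q + j) % q = j := by
    intro a j hj
    rw [add_comm, Int.add_mul_emod_self_right]
    exact Int.emod_eq_of_lt (by positivity) (by exact_mod_cast lt_of_lt_of_le hj hNq)
  -- the product has at least `N |A|` elements
  have hcard : N * A.card ≤
      (Finset.image₂ (fun (a : ℤ) (j : ℕ) => a * q + j) A (Finset.range N)).card := by
    have h1 : (A ×ˢ Finset.range N).card ≤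
        (Finset.image₂ (fun (a : ℤ) (j : ℕ) => a * q + j) A (Finset.range N)).card := by
      refine Finset.card_le_card_of_injOn (fun p => p.1 * q + p.2) ?_ ?_
      · rintro ⟨a, j⟩ hp
        rw [Finset.mem_coe, Finset.mem_product] at hp
        exact Finset.mem_coe.2 (Finset.mem_image₂_of_mem hp.1 hp.2)
      · rintro ⟨a, j⟩ hp ⟨b, k⟩ hp' heq
        rw [Finset.mem_coe, Finset.mem_product, Finset.mem_range] at hp hp'
        have heq' : a * (q : ℤ) + j = b * q + k := heq
        have h2 : (j : ℤ) = k := by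
          rw [← hmod a j hp.2, ← hmod b k hp'.2, heq']
        have h3 : a * (q : ℤ) = b * q := by linarith
        have h4 := mul_right_cancel₀ hqz h3
        have h5 : j = k := by exact_mod_cast h2
        rw [h4, h5]
    rw [Finset.card_product, Finset.card_range, mul_comm] at h1
    exact h1
  have hNA : (N : ℝ) * A.card ≤ M * S.card := by
    refine le_trans ?_ hM
    exact_mod_cast hcard
  -- classes
  let f : (Fin n → ℤ) → ℕ := fun x => ((t + φ x) % q).toNat
  have hf : ∀ x, ((f x : ℕ) : ℤ) = (t + φ x) % q := fun x =>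
    Int.toNat_of_nonneg (Int.emod_nonneg _ hqz)
  have hfq : ∀ x, f x < q := by
    intro x
    have h1 := Int.emod_lt_of_pos (t + φ x) (show (0 : ℤ) < q by exact_mod_cast hq)
    rw [← hf] at h1
    exact_mod_cast h1
  have hSj : ∀ s ∈ S, f s < N ∧ ∃ a ∈ A, a * q + (f s : ℤ) = t + φ s := by
    intro s hs
    obtain ⟨a, ha, j, hj, haj⟩ := Finset.mem_image₂.1 (hSA s hs)
    rw [Finset.mem_range] at hj
    have h1 : (f s : ℤ) = j := by rw [hf, ← haj, hmod a j hj]
    have h2 : f s = j := by exact_mod_cast h1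
    refine ⟨by omega, a, ha, ?_⟩
    rw [h1, haj]
  set F := (hull_fin S).toFinset with hF
  have hFc : (F.card : ℝ) ≤ M * S.card := by
    rw [hF, ← Set.ncard_eq_toFinset_card _ (hull_fin S)]
    exact hL
  have hsumS : ∑ j ∈ Finset.range N, ((S.filter fun s => f s = j).card : ℝ) = S.card := by
    have h1 := Finset.card_eq_sum_card_fiberwise (s := S) (t := Finset.range N) (f := f)
      fun s hs => Finset.mem_coe.2 (Finset.mem_range.2 (hSj s hs).1)
    rw [h1, Nat.cast_sum]
  have hsumF : ∑ j ∈ Finset.range N, ((F.filter fun s => f s = j).card : ℝ) ≤ F.card := by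
    have h1 := Finset.card_eq_sum_card_fiberwise (s := F) (t := Finset.range q) (f := f)
      fun s _ => Finset.mem_coe.2 (Finset.mem_range.2 (hfq s))
    rw [h1, Nat.cast_sum]
    refine Finset.sum_le_sum_of_subset_of_nonneg (Finset.range_subset_range.2 hNq) ?_
    intro j _ _
    positivity
  obtain ⟨j, hjN, hj1, hj2⟩ : ∃ j ∈ Finset.range N,
      (A.card : ℝ) ≤ 2 * M * (S.filter fun s => f s = j).card ∧
      ((F.filter fun s => f s = j).card : ℝ) ≤ 2 * M * (S.filter fun s => f s = j).card := by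
    by_contra hc
    push Not at hc
    have h1 : ∑ j ∈ Finset.range N, 2 * M * ((S.filter fun s => f s = j).card : ℝ) <
        ∑ j ∈ Finset.range N, ((A.card : ℝ) + (F.filter fun s => f s = j).card) := by
      refine Finset.sum_lt_sum_of_nonempty ⟨0, Finset.mem_range.2 hN⟩ ?_
      intro j hj
      have h0 : (0 : ℝ) ≤ ((F.filter fun s => f s = j).card : ℝ) := by positivity
      by_cases h3 : (A.card : ℝ) ≤ 2 * M * (S.filter fun s => f s = j).card
      · have := hc j hj h3
        linarith
      · push Not at h3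
        linarith
    rw [← Finset.mul_sum, hsumS, Finset.sum_add_distrib, Finset.sum_const, Finset.card_range,
      nsmul_eq_mul] at h1
    linarith
  set Sj := S.filter fun s => f s = j with hSjdef
  have hSjne : Sj.Nonempty := by
    rw [← Finset.card_pos]
    by_contra h
    have : Sj.card = 0 := by omega
    rw [this, Nat.cast_zero, mul_zero] at hj1
    linarith
  obtain ⟨s0, hs0⟩ := hSjne
  have hSjA : ∀ s ∈ Sj, ∃ a ∈ A, a * q + (j : ℤ) = t + φ s := by
    intro s hs
    rw [hSjdef, Finset.mem_filter] at hs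
    obtain ⟨-, a, ha, h1⟩ := hSj s hs.1
    rw [hs.2] at h1
    exact ⟨a, ha, h1⟩
  obtain ⟨a0, ha0, hat0⟩ := hSjA s0 hs0
  -- the sublattice
  let Λ : Submodule ℤ (Fin n → ℤ) :=
    { carrier := {x | (q : ℤ) ∣ φ x}
      add_mem' := by
        intro x y hx hy
        show (q : ℤ) ∣ φ (x + y)
        rw [map_add]
        exact dvd_add hx hy
      zero_mem' := by
        show (q : ℤ) ∣ φ 0
        rw [map_zero]
        exact dvd_zero _
      smul_mem' := by
        intro c x hx
        show (q : ℤ) ∣ φ (c • x)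
        rw [map_zsmul, smul_eq_mul]
        exact Dvd.dvd.mul_left hx c }
  obtain ⟨r, ι, hι, hιΛ⟩ := param Λ
  have hιq : ∀ z, ∃ c, φ (ι z) = q * c := fun z => (hιΛ (ι z)).2 ⟨z, rfl⟩
  choose φ0 hφ0 using hιq
  let φ' : (Fin r → ℤ) →+ ℤ :=
    { toFun := φ0
      map_zero' := by
        have h1 := hφ0 0
        rw [map_zero, map_zero] at h1
        rcases mul_eq_zero.1 h1.symm with h2 | h2
        · exact absurd h2 hqz
        · exact h2
      map_add' := by
        intro x y
        have h1 := hφ0 (x + y)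
        rw [map_add, map_add, hφ0 x, hφ0 y, ← mul_add] at h1
        exact (mul_left_cancel₀ hqz h1).symm }
  have hφ' : ∀ z, φ (ι z) = q * φ' z := hφ0
  have hg : ∀ s ∈ Sj, ∃ z, ι z = s - s0 := by
    intro s hs
    apply (hιΛ _).1
    obtain ⟨a, ha, hat⟩ := hSjA s hs
    show (q : ℤ) ∣ φ (s - s0)
    refine ⟨a - a0, ?_⟩
    rw [map_sub]
    linear_combination hat0 - hat
  choose! g hg using hg
  have hgφ : ∀ s ∈ Sj, a0 + φ' (g s) ∈ A := by
    intro s hs
    obtain ⟨a, ha, hat⟩ := hSjA s hs
    have h1 := hφ' (g s)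
    rw [hg s hs, map_sub] at h1
    have h2 : (q : ℤ) * φ' (g s) = q * (a - a0) := by
      rw [← h1]
      linear_combination hat0 - hat
    have h3 := mul_left_cancel₀ hqz h2
    rw [h3]
    simpa using ha
  have hginj : Set.InjOn g (Sj : Set (Fin n → ℤ)) := by
    intro x hx y hy hxy
    have h1 := hg x hx
    rw [hxy, hg y hy] at h1
    exact (sub_left_injective h1).symm
  refine ⟨r, Sj.image g, φ', a0, ?_, ?_, ?_, ?_⟩
  · intro x y hx hy hxy
    have key : ∀ u : Fin 2 → Fin r → ℤ, (∀ i, u i ∈ Sj.image g) →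
        ∃ v : Fin 2 → Fin n → ℤ, (∀ i, v i ∈ S) ∧ ι (∑ i, u i) = ∑ i, v i - (s0 + s0) := by
      intro u hu
      have h0 : ∀ i, ∃ s ∈ Sj, g s = u i := fun i => Finset.mem_image.1 (hu i)
      choose v hv hvu using h0
      refine ⟨v, fun i => (Finset.mem_filter.1 (hv i)).1, ?_⟩
      rw [map_sum]
      have h1 : ∀ i, ι (u i) = v i - s0 := fun i => by rw [← hvu i]; exact hg _ (hv i)
      simp only [h1, Fin.sum_univ_two]
      abel
    obtain ⟨v, hv, hvs⟩ := key x hx
    obtain ⟨w, hw, hws⟩ := key y hy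
    apply hι
    rw [hvs, hws]
    have h1 : φ (ι (∑ i, x i)) = φ (ι (∑ i, y i)) := by rw [hφ', hφ', hxy]
    rw [hvs, hws, map_sub, map_sub] at h1
    have h2 := hφ v w hv hw (sub_left_injective h1)
    rw [h2]
  · intro z hz
    obtain ⟨s, hs, rfl⟩ := Finset.mem_image.1 hz
    exact hgφ s hs
  · rw [Finset.card_image_of_injOn hginj]
    exact hj1
  · rw [Finset.card_image_of_injOn hginj]
    refine le_trans ?_ hj2
    have h1 : (LP (hull (Sj.image g))).ncard ≤ (F.filter fun s => f s = j).card := by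
      rw [Set.ncard_eq_toFinset_card _ (hull_fin _)]
      refine Finset.card_le_card_of_injOn (fun z => s0 + ι z) ?_ ?_
      · intro z hz
        rw [Finset.mem_coe, Set.Finite.mem_toFinset] at hz
        rw [Finset.mem_coe, Finset.mem_filter, hF, Set.Finite.mem_toFinset]
        constructor
        · rw [mem_LP, rv_add, ← ext_rv]
          have hconv : Convex ℝ (ext ι ⁻¹' ((fun z => rv s0 + z) ⁻¹' hull S)) :=
            ((convex_convexHull ℝ _).translate_preimage_right (rv s0)).linear_preimage (ext ι)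
          have hsub : rv '' ((Sj.image g : Finset (Fin r → ℤ)) : Set (Fin r → ℤ)) ⊆
              ext ι ⁻¹' ((fun z => rv s0 + z) ⁻¹' hull S) := by
            rintro _ ⟨z', hz', rfl⟩
            obtain ⟨s, hs, rfl⟩ := Finset.mem_image.1 (Finset.mem_coe.1 hz')
            show rv s0 + ext ι (rv (g s)) ∈ hull S
            rw [ext_rv, hg s hs, rv_sub, add_sub_cancel]
            exact mem_hull (Finset.mem_filter.1 hs).1
          exact convexHull_min hsub hconv hz
        · have h2 : (f (s0 + ι z) : ℤ) = f s0 := by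
            rw [hf, hf, map_add, hφ', ← add_assoc, Int.add_mul_emod_self_left]
          have h3 : f (s0 + ι z) = f s0 := by exact_mod_cast h2
          rw [h3]
          exact (Finset.mem_filter.1 hs0).2
      · intro z _ w _ hzw
        exact hι (add_left_cancel (hzw : s0 + ι z = s0 + ι w))
    exact_mod_cast h1

end Pool.Agent.R934.PF
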