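import Mathlib

set_option autoImplicit false

/-! A linear form modulo a small prime which does not vanish at given integer vectors. -/

namespace Pool.Agent.R934.PF

open Finset

/-- A finite set `W` of integer vectors none of which is divisible by the prime `p > |W|`: some
linear form modulo `p` does not vanish at the nonzero elements of `W`. -/
theorem exists_form {d p : ℕ} [hp : Fact p.Prime] (W : Finset (Fin d → ℤ)) (hW : W.card < p)
    (hdiv : ∀ w ∈ W, w ≠ 0 → ∃ i, ¬ (p : ℤ) ∣ w i) :
    ∃ h : Fin d → ZMod p, ∀ w ∈ W, w ≠ 0 → ∑ i, h i * (w i : ZMod p) ≠ 0 := by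
  classical
  have hp0 : 0 < p := hp.out.pos
  set bad : (Fin d → ℤ) → Finset (Fin d → ZMod p) := fun w =>
    univ.filter fun h => ∑ i, h i * (w i : ZMod p) = 0 with hbad
  have hbc : ∀ w ∈ W.erase 0, (bad w).card * p ≤ p ^ d := by
    intro w hw
    rw [mem_erase] at hw
    obtain ⟨i0, hi0⟩ := hdiv w hw.2 hw.1
    have hne : (w i0 : ZMod p) ≠ 0 := by
      intro h
      exact hi0 ((ZMod.intCast_zmod_eq_zero_iff_dvd _ _).1 h)
    have h1 : ((bad w) ×ˢ (univ : Finset (ZMod p))).card ≤ (univ : Finset (Fin d → ZMod p)).card := by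
      refine card_le_card_of_injOn (fun q => q.1 + Pi.single i0 q.2) (fun _ _ => mem_univ _) ?_
      rintro ⟨h, c⟩ hh ⟨h', c'⟩ hh' heq
      rw [mem_coe, mem_product] at hh hh'
      have e1 : ∑ i, h i * (w i : ZMod p) = 0 := (mem_filter.1 hh.1).2
      have e2 : ∑ i, h' i * (w i : ZMod p) = 0 := (mem_filter.1 hh'.1).2
      have key : ∀ (g : Fin d → ZMod p) (e : ZMod p), ∑ i, g i * (w i : ZMod p) = 0 →
          ∑ i, (g + (Pi.single i0 e : Fin d → ZMod p)) i * (w i : ZMod p) = e * w i0 := by
        intro g e hg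
        simp only [Pi.add_apply, add_mul, sum_add_distrib, hg, zero_add]
        rw [sum_eq_single i0]
        · rw [Pi.single_eq_same]
        · intro b _ hb
          rw [Pi.single_eq_of_ne hb, zero_mul]
        · intro hb
          exact absurd (mem_univ _) hb
      have heq' : h + Pi.single i0 c = h' + Pi.single i0 c' := heq
      have e3 := key h c e1
      have e4 := key h' c' e2
      rw [heq'] at e3
      have hc : c = c' := mul_right_cancel₀ hne (e3.symm.trans e4)
      subst hc
      have := add_right_cancel heq'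
      rw [this]
    rw [card_product, card_univ, card_univ, ZMod.card, Fintype.card_fun, ZMod.card,
      Fintype.card_fin] at h1
    exact h1
  have hU : ((W.erase 0).biUnion bad).card * p < p ^ d * p := by
    calc ((W.erase 0).biUnion bad).card * p ≤ (∑ w ∈ W.erase 0, (bad w).card) * p :=
          Nat.mul_le_mul_right _ card_biUnion_le
      _ = ∑ w ∈ W.erase 0, (bad w).card * p := by rw [sum_mul]
      _ ≤ ∑ _w ∈ W.erase 0, p ^ d := sum_le_sum hbc
      _ = (W.erase 0).card * p ^ d := by rw [sum_const, smul_eq_mul]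
      _ ≤ W.card * p ^ d := Nat.mul_le_mul_right _ (card_le_card (erase_subset _ _))
      _ < p * p ^ d := Nat.mul_lt_mul_of_pos_right hW (by positivity)
      _ = p ^ d * p := by ring
  have hU' : ((W.erase 0).biUnion bad).card < (univ : Finset (Fin d → ZMod p)).card := by
    rw [card_univ, Fintype.card_fun, ZMod.card, Fintype.card_fin]
    exact lt_of_mul_lt_mul_right hU (Nat.zero_le _)
  obtain ⟨h, -, hh⟩ := exists_mem_notMem_of_card_lt_card hU'
  refine ⟨h, fun w hw hw0 h0 => hh ?_⟩
  rw [mem_biUnion]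
  exact ⟨w, mem_erase.2 ⟨hw0, hw⟩, mem_filter.2 ⟨mem_univ _, h0⟩⟩

end Pool.Agent.R934.PF
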