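import Pool.Agent.R934.PF.Big

set_option autoImplicit false

/-! The polynomial Freiman-Ruzsa conjecture in the integers and dense pieces in convex sets. -/

open scoped Pointwise

namespace Pool.Agent.R934.PF

open Pool.Agent.TH198.DC

/-- the homomorphism with given values at the unit vectors -/
def hom {d : ℕ} (v : Fin d → ℤ) : (Fin d → ℤ) →+ ℤ where
  toFun x := ∑ i, v i * x i
  map_zero' := by simp
  map_add' x y := by simp [mul_add, Finset.sum_add_distrib]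

theorem eq_hom {d : ℕ} (ψ : (Fin d → ℤ) →+ ℤ) (x : Fin d → ℤ) :
    ψ x = ∑ i, ψ (Pi.single i 1) * x i := by
  have h1 : x = ∑ i, x i • (Pi.single i 1 : Fin d → ℤ) := by
    funext j
    simp [Finset.sum_apply, Pi.single_apply]
  conv_lhs => rw [h1]
  rw [map_sum]
  refine Finset.sum_congr rfl fun i _ => ?_
  rw [map_zsmul, smul_eq_mul, mul_comm]

/-- the conclusion of the conjecture: `A` is covered by at most `C K ^ C` translates of a convex
progression of dimension at most `C (1 + log K)` and volume at most `|A|` -/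
def Covered (C K : ℝ) (A : Finset ℤ) : Prop :=
  ∃ (d : ℕ) (B : Set (Fin d → ℝ)) (v : Fin d → ℤ) (T : Finset ℤ),
    (d : ℝ) ≤ C * (1 + Real.log K) ∧
    Convex ℝ B ∧ IsCompact B ∧ (interior B).Nonempty ∧ (∀ x ∈ B, -x ∈ B) ∧
    ({x : Fin d → ℤ | (fun i => (x i : ℝ)) ∈ B}.ncard ≤ A.card) ∧
    ((T.card : ℝ) ≤ C * K ^ C) ∧
    ∀ a ∈ A, ∃ t ∈ T, ∃ x : Fin d → ℤ,
      (fun i => (x i : ℝ)) ∈ B ∧ a = t + ∑ i, v i * x i

/-- the strong form of a piece, of order `m`, in a symmetric convex body of dimension at most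
`C (1 + log K)` with at most `|A|` lattice points -/
def StrongPiece (m : ℕ) (C K : ℝ) (A : Finset ℤ) : Prop :=
  ∃ (d : ℕ) (B : Set (Fin d → ℝ)) (S : Finset (Fin d → ℤ)) (φ : (Fin d → ℤ) →+ ℤ) (t : ℤ),
    (d : ℝ) ≤ C * (1 + Real.log K) ∧
    Convex ℝ B ∧ IsCompact B ∧ (interior B).Nonempty ∧ (∀ x ∈ B, -x ∈ B) ∧
    (LP B).ncard ≤ A.card ∧ (∀ s ∈ S, s ∈ LP B) ∧ FInj m φ S ∧ (∀ s ∈ S, t + φ s ∈ A) ∧
    (A.card : ℝ) ≤ C * K ^ C * S.card

theorem one_le_of_doubling {K : ℝ} {A : Finset ℤ} (hA : A.Nonempty)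
    (hK : ((A + A).card : ℝ) ≤ K * A.card) : 1 ≤ K := by
  have hAc : (0 : ℝ) < A.card := by exact_mod_cast hA.card_pos
  have h1 : (A.card : ℝ) ≤ (A + A).card := by
    exact_mod_cast Finset.card_le_card_add_right hA
  by_contra h
  nlinarith

theorem Piece.mono {M M' : ℝ} {A : Finset ℤ} (h : Piece M A) (hM : M ≤ M') : Piece M' A := by
  obtain ⟨n, S, φ, t, h1, h2, h3, h4⟩ := h
  exact ⟨n, S, φ, t, h1, h2, h3.trans (by gcongr), h4.trans (by gcongr)⟩

/-- elementary bound -/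
theorem bound (C : ℝ) (hC : 0 < C) (m : ℕ) : ∃ C' : ℝ, 0 < C' ∧ C ≤ C' ∧ ∀ K : ℝ, 1 ≤ K →
    ∀ (d : ℕ) (T : ℝ), 0 ≤ T → (d : ℝ) ≤ C * (1 + Real.log K) → T ≤ C * K ^ C →
    2 * 5 ^ ((m + 3) * d) * T ^ 2 ≤ C' * K ^ C' := by
  set c : ℝ := ((m : ℝ) + 3) * Real.log 5 * C with hc
  have hl5 : 0 < Real.log 5 := Real.log_pos (by norm_num)
  have hc0 : 0 < c := by positivity
  refine ⟨2 * Real.exp c * C ^ 2 + c + 2 * C, by positivity, by nlinarith [Real.exp_pos c, sq_nonneg C], ?_⟩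
  intro K hK d T hT hd hTC
  have hK0 : 0 < K := by linarith
  have h1 : (5 : ℝ) ^ ((m + 3) * d) ≤ Real.exp c * K ^ c := by
    have h2 : (5 : ℝ) ^ ((m + 3) * d) = Real.exp (((m : ℝ) + 3) * Real.log 5 * d) := by
      rw [← Real.exp_log (show (0 : ℝ) < 5 by norm_num), ← Real.exp_nat_mul, Real.log_exp]
      congr 1
      push_cast
      ring
    have h3 : Real.exp c * K ^ c = Real.exp (((m : ℝ) + 3) * Real.log 5 * (C * (1 + Real.log K))) := by
      rw [Real.rpow_def_of_pos hK0, ← Real.exp_add]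
      congr 1
      rw [hc]
      ring
    rw [h2, h3, Real.exp_le_exp]
    gcongr
  have h4 : T ^ 2 ≤ C ^ 2 * K ^ (2 * C) := by
    calc T ^ 2 ≤ (C * K ^ C) ^ 2 := by gcongr
      _ = C ^ 2 * K ^ (2 * C) := by
        rw [mul_pow, ← Real.rpow_natCast (K ^ C) 2, ← Real.rpow_mul hK0.le]
        congr 2
        push_cast
        ring
  calc 2 * 5 ^ ((m + 3) * d) * T ^ 2 ≤ 2 * (Real.exp c * K ^ c) * (C ^ 2 * K ^ (2 * C)) := by gcongr
    _ = (2 * Real.exp c * C ^ 2) * K ^ (c + 2 * C) := by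
      rw [Real.rpow_add hK0]
      ring
    _ ≤ (2 * Real.exp c * C ^ 2 + c + 2 * C) * K ^ (2 * Real.exp c * C ^ 2 + c + 2 * C) := by
      have h5 : 0 ≤ 2 * Real.exp c * C ^ 2 := by positivity
      exact mul_le_mul (by linarith) (Real.rpow_le_rpow_of_exponent_le hK (by linarith))
        (by positivity) (by positivity)

/-- a covering gives a piece of every order -/
theorem strongPiece_of_covered (m : ℕ) {C K : ℝ} {A : Finset ℤ}
    (hA : A.Nonempty) (hK1 : 1 ≤ K) (h : Covered C K A) {C' : ℝ} (hCC' : C ≤ C')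
    (hb : ∀ (d : ℕ) (T : ℝ), 0 ≤ T → (d : ℝ) ≤ C * (1 + Real.log K) → T ≤ C * K ^ C →
      2 * 5 ^ ((m + 3) * d) * T ^ 2 ≤ C' * K ^ C') : StrongPiece m C' K A := by
  obtain ⟨d, B, v, T, hd, hB1, hB2, hB3, hB4, hBc, hT, hcov⟩ := h
  have hSB : SB B := ⟨hB1, hB2, hB3, hB4⟩
  obtain ⟨S, t, -, -, hSB', hSA, hinj, hcard⟩ := exists_piece hSB (hom v) hA (L := 1)
    (by rw [one_mul]; exact hBc) hcov m
  have hlog : 0 ≤ Real.log K := Real.log_nonneg hK1
  refine ⟨d, B, S, hom v, t, hd.trans (by gcongr), hB1, hB2, hB3, hB4, hBc, hSB', hinj, hSA, ?_⟩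
  have h1 : (A.card : ℝ) ≤ 2 * 5 ^ ((m + 3) * d) * (T.card : ℝ) ^ 2 * S.card := by
    have h2 : (A.card : ℝ) ≤ ((2 * 5 ^ ((m + 3) * d) * 1 * T.card ^ 2 * S.card : ℕ) : ℝ) := by
      exact_mod_cast hcard
    push_cast at h2
    linarith
  exact h1.trans (mul_le_mul_of_nonneg_right (hb d T.card (by positivity) hd hT)
    (Nat.cast_nonneg _))

theorem StrongPiece.piece {C K : ℝ} {A : Finset ℤ} (h : StrongPiece 2 C K A) : Piece (C * K ^ C) A := by
  obtain ⟨d, B, S, φ, t, -, hB1, hB2, hB3, hB4, hBc, hSB', hinj, hSA, hcard⟩ := h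
  have hSB : SB B := ⟨hB1, hB2, hB3, hB4⟩
  refine ⟨d, S, φ, t, hinj, hSA, hcard, ?_⟩
  have h1 : (LP (hull S)).ncard ≤ (LP B).ncard := by
    refine Set.ncard_le_ncard (LP_mono ?_) hSB.fin1
    refine convexHull_min ?_ hB1
    rintro _ ⟨s, hs, rfl⟩
    exact hSB' s hs
  have h2 : ((LP (hull S)).ncard : ℝ) ≤ A.card := by exact_mod_cast h1.trans hBc
  exact h2.trans hcard

/-- a piece gives a covering -/
theorem covered_of_piece {M K : ℝ} {A : Finset ℤ} (hA : A.Nonempty)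
    (hK : ((A + A).card : ℝ) ≤ K * A.card) (h : Piece M A) :
    ∃ (d : ℕ) (B : Set (Fin d → ℝ)) (v : Fin d → ℤ) (T : Finset ℤ),
      (d : ℝ) ≤ 480 * Real.log (K * M) + 1 ∧
      Convex ℝ B ∧ IsCompact B ∧ (interior B).Nonempty ∧ (∀ x ∈ B, -x ∈ B) ∧
      ({x : Fin d → ℤ | (fun i => (x i : ℝ)) ∈ B}.ncard ≤ A.card) ∧
      ((T.card : ℝ) ≤ (2 * (K * M)) ^ 4200) ∧
      ∀ a ∈ A, ∃ t ∈ T, ∃ x : Fin d → ℤ,
        (fun i => (x i : ℝ)) ∈ B ∧ a = t + ∑ i, v i * x i := by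
  obtain ⟨n, S, φ, t, hinj, hSA, hM, hL⟩ := h
  obtain ⟨d, B, ψ, T, hd, hB, hBc, hT, hcov⟩ := cover_of_piece hA hK S φ t hinj hSA hM
    (convex_convexHull ℝ _) (hull_fin S) (fun s hs => mem_hull hs) hL
  refine ⟨d, B, fun i => ψ (Pi.single i 1), T, hd, hB.conv, hB.comp, hB.inter, hB.symm, hBc, hT, ?_⟩
  intro a ha
  obtain ⟨t, ht, x, hx, hax⟩ := hcov a ha
  exact ⟨t, ht, x, hx, by rw [hax, eq_hom ψ x]⟩

/-- doubling of the product with an interval -/
theorem prod_doubling {K : ℝ} {A : Finset ℤ} (hK : ((A + A).card : ℝ) ≤ K * A.card) {N : ℕ}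
    (hN : 0 < N) :
    ((Finset.image₂ (fun (a : ℤ) (j : ℕ) => a * (2 * N : ℕ) + j) A (Finset.range N)).card
      = A.card * N) ∧
    (((Finset.image₂ (fun (a : ℤ) (j : ℕ) => a * (2 * N : ℕ) + j) A (Finset.range N) +
      Finset.image₂ (fun (a : ℤ) (j : ℕ) => a * (2 * N : ℕ) + j) A (Finset.range N)).card : ℝ)
      ≤ (2 * K) *
        (Finset.image₂ (fun (a : ℤ) (j : ℕ) => a * (2 * N : ℕ) + j) A (Finset.range N)).card) := by
  classical
  set P := Finset.image₂ (fun (a : ℤ) (j : ℕ) => a * (2 * N : ℕ) + j) A (Finset.range N) with hP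
  have hq : (((2 * N : ℕ) : ℤ)) ≠ 0 := by
    have : 2 * N ≠ 0 := by omega
    exact_mod_cast this
  have hmod : ∀ (a : ℤ) (j : ℕ), j < 2 * N → (a * (2 * N : ℕ) + j) % (2 * N : ℕ) = j := by
    intro a j hj
    rw [add_comm, Int.add_mul_emod_self_right]
    exact Int.emod_eq_of_lt (by positivity) (by exact_mod_cast hj)
  have hcard : P.card = A.card * N := by
    have h1 : P = (A ×ˢ Finset.range N).image (fun p => p.1 * ((2 * N : ℕ) : ℤ) + p.2) := rfl
    rw [h1, Finset.card_image_of_injOn, Finset.card_product, Finset.card_range]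
    rintro ⟨a, j⟩ hp ⟨b, k⟩ hp' heq
    rw [Finset.mem_coe, Finset.mem_product, Finset.mem_range] at hp hp'
    have heq' : a * ((2 * N : ℕ) : ℤ) + j = b * ((2 * N : ℕ) : ℤ) + k := heq
    have h2 : (j : ℤ) = k := by
      rw [← hmod a j (by have := hp.2; simp only at this; omega),
        ← hmod b k (by have := hp'.2; simp only at this; omega), heq']
    have h3 : a * ((2 * N : ℕ) : ℤ) = b * ((2 * N : ℕ) : ℤ) := by linarith
    have h4 := mul_right_cancel₀ hq h3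
    have h5 : j = k := by exact_mod_cast h2
    rw [h4, h5]
  refine ⟨hcard, ?_⟩
  have hsub : P + P ⊆ Finset.image₂ (fun (a : ℤ) (j : ℕ) => a * (2 * N : ℕ) + j) (A + A)
      (Finset.range (2 * N)) := by
    intro z hz
    obtain ⟨x, hx, y, hy, rfl⟩ := Finset.mem_add.1 hz
    obtain ⟨a, ha, j, hj, rfl⟩ := Finset.mem_image₂.1 hx
    obtain ⟨b, hb, k, hk, rfl⟩ := Finset.mem_image₂.1 hy
    rw [Finset.mem_range] at hj hk
    refine Finset.mem_image₂.2 ⟨a + b, Finset.add_mem_add ha hb, j + k,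
      Finset.mem_range.2 (by omega), ?_⟩
    push_cast
    ring
  have h1 : (P + P).card ≤ (A + A).card * (2 * N) := by
    refine (Finset.card_le_card hsub).trans ((Finset.card_image₂_le _ _ _).trans ?_)
    rw [Finset.card_range]
  have h2 : ((P + P).card : ℝ) ≤ (A + A).card * (2 * N) := by exact_mod_cast h1
  rw [hcard]
  push_cast
  calc ((P + P).card : ℝ) ≤ (A + A).card * (2 * N) := h2
    _ ≤ (K * A.card) * (2 * N) := by gcongr
    _ = (2 * K) * (A.card * N) := by ring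

/-- a covering gives a piece -/
theorem piece_of_cover {d : ℕ} {B : Set (Fin d → ℝ)} (hB1 : Convex ℝ B) (hB2 : IsCompact B)
    (hB3 : (interior B).Nonempty) (hB4 : ∀ x ∈ B, -x ∈ B) {v : Fin d → ℤ} {A T : Finset ℤ}
    (hA : A.Nonempty) (hBc : {x : Fin d → ℤ | (fun i => (x i : ℝ)) ∈ B}.ncard ≤ A.card)
    (hcov : ∀ a ∈ A, ∃ t ∈ T, ∃ x : Fin d → ℤ,
      (fun i => (x i : ℝ)) ∈ B ∧ a = t + ∑ i, v i * x i) :
    Piece (2 * 5 ^ (5 * d) * (T.card : ℝ) ^ 2) A := by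
  have hSB : SB B := ⟨hB1, hB2, hB3, hB4⟩
  obtain ⟨S, t, -, -, hSB', hSA, hinj, hcard⟩ := exists_piece hSB (hom v) hA (L := 1)
    (by rw [one_mul]; exact hBc) hcov 2
  have h1 : (A.card : ℝ) ≤ 2 * 5 ^ (5 * d) * (T.card : ℝ) ^ 2 * S.card := by
    have h2 : (A.card : ℝ) ≤ ((2 * 5 ^ ((2 + 3) * d) * 1 * T.card ^ 2 * S.card : ℕ) : ℝ) := by
      exact_mod_cast hcard
    push_cast at h2
    norm_num at h2
    exact h2
  refine ⟨d, S, hom v, t, hinj, hSA, h1, ?_⟩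
  have h3 : (LP (hull S)).ncard ≤ (LP B).ncard := by
    refine Set.ncard_le_ncard (LP_mono ?_) hSB.fin1
    refine convexHull_min ?_ hB1
    rintro _ ⟨s, hs, rfl⟩
    exact hSB' s hs
  have h2 : ((LP (hull S)).ncard : ℝ) ≤ A.card := by exact_mod_cast h3.trans hBc
  exact h2.trans h1

/-- **Equivalent forms of the conjecture.** -/
theorem main_tfae : List.TFAE [
    ∃ C : ℝ, 0 < C ∧ ∀ (K : ℝ) (A : Finset ℤ), A.Nonempty →
      ((A + A).card : ℝ) ≤ K * (A.card : ℝ) → Covered C K A,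
    ∃ (F : ℝ → ℝ) (C : ℝ), 0 < C ∧ ∀ (K : ℝ) (A : Finset ℤ), A.Nonempty → F K ≤ A.card →
      ((A + A).card : ℝ) ≤ K * (A.card : ℝ) → Covered C K A,
    ∃ C : ℝ, 0 < C ∧ ∀ (K : ℝ) (A : Finset ℤ), A.Nonempty →
      ((A + A).card : ℝ) ≤ K * (A.card : ℝ) → Piece (C * K ^ C) A,
    ∀ m : ℕ, ∃ C : ℝ, 0 < C ∧ ∀ (K : ℝ) (A : Finset ℤ), A.Nonempty →
      ((A + A).card : ℝ) ≤ K * (A.card : ℝ) → StrongPiece m C K A] := by
  tfae_have 1 → 2
  | ⟨C, hC, h⟩ => ⟨fun _ => 0, C, hC, fun K A hA _ hK => h K A hA hK⟩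
  tfae_have 2 → 3 := by
    rintro ⟨F, C, hC, h⟩
    obtain ⟨C', hC', hCC', hb⟩ := bound C hC 2
    refine ⟨2 * (C' * 2 ^ C') + C', by positivity, ?_⟩
    intro K A hA hK
    have hK1 := one_le_of_doubling hA hK
    have hK0 : 0 < K := by linarith
    set N : ℕ := max 1 ⌈F (2 * K)⌉₊ with hN
    have hN0 : 0 < N := lt_of_lt_of_le one_pos (le_max_left _ _)
    obtain ⟨hP1, hP2⟩ := prod_doubling hK hN0
    have hAc : 1 ≤ A.card := hA.card_pos
    have hFN : F (2 * K) ≤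
        (Finset.image₂ (fun (a : ℤ) (j : ℕ) => a * (2 * N : ℕ) + j) A (Finset.range N)).card := by
      rw [hP1]
      have h1 : F (2 * K) ≤ (N : ℝ) := (Nat.le_ceil _).trans (by
        exact_mod_cast le_max_right _ _)
      have h2 : (N : ℝ) ≤ ((A.card * N : ℕ) : ℝ) := by
        exact_mod_cast Nat.le_mul_of_pos_left N hAc
      exact h1.trans h2
    have hPne : (Finset.image₂ (fun (a : ℤ) (j : ℕ) => a * (2 * N : ℕ) + j) A
        (Finset.range N)).Nonempty :=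
      Finset.Nonempty.image₂ hA ⟨0, Finset.mem_range.2 hN0⟩
    have h1 := strongPiece_of_covered 2 hPne (by linarith : (1 : ℝ) ≤ 2 * K)
      (h (2 * K) _ hPne hFN hP2) hCC' (hb (2 * K) (by linarith))
    have h2 := h1.piece
    have h3 := piece_slice hA hN0 (by omega) h2
    refine h3.mono ?_
    calc 2 * (C' * (2 * K) ^ C') = (2 * (C' * 2 ^ C')) * K ^ C' := by
          rw [Real.mul_rpow (by norm_num) hK0.le]; ring
      _ ≤ (2 * (C' * 2 ^ C') + C') * K ^ (2 * (C' * 2 ^ C') + C') := by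
        have h4 : 0 ≤ 2 * (C' * (2 : ℝ) ^ C') := by positivity
        exact mul_le_mul (by linarith) (Real.rpow_le_rpow_of_exponent_le hK1 (by linarith))
          (by positivity) (by positivity)
  tfae_have 3 → 1 := by
    rintro ⟨C, hC, h⟩
    refine ⟨(2 * C) ^ 4200 + 4200 * (1 + C) + 480 * C + 1, by positivity, ?_⟩
    intro K A hA hK
    have hK1 := one_le_of_doubling hA hK
    have hK0 : 0 < K := by linarith
    have hlog : 0 ≤ Real.log K := Real.log_nonneg hK1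
    obtain ⟨d, B, v, T, hd, hB1, hB2, hB3, hB4, hBc, hT, hcov⟩ := covered_of_piece hA hK (h K A hA hK)
    have h0 : 0 ≤ (2 * C) ^ 4200 := by positivity
    refine ⟨d, B, v, T, ?_, hB1, hB2, hB3, hB4, hBc, ?_, hcov⟩
    · have h1 : Real.log (K * (C * K ^ C)) = Real.log C + (1 + C) * Real.log K := by
        rw [Real.log_mul hK0.ne' (by positivity), Real.log_mul hC.ne' (by positivity),
          Real.log_rpow hK0]
        ring
      have h2 : Real.log C ≤ C := (Real.log_le_sub_one_of_pos hC).trans (by linarith)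
      rw [h1] at hd
      have h3 : 480 * (1 + C) * Real.log K ≤
          ((2 * C) ^ 4200 + 4200 * (1 + C) + 480 * C + 1) * Real.log K := by
        gcongr
        nlinarith
      nlinarith
    · refine hT.trans ?_
      have h1 : (2 * (K * (C * K ^ C))) ^ 4200 = (2 * C) ^ 4200 * K ^ (4200 * (1 + C)) := by
        have h2 : K * K ^ C = K ^ (1 + C) := by rw [Real.rpow_add hK0, Real.rpow_one]
        calc (2 * (K * (C * K ^ C))) ^ 4200 = (2 * C * (K * K ^ C)) ^ 4200 := by congr 1; ring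
          _ = (2 * C) ^ 4200 * (K ^ (1 + C)) ^ 4200 := by rw [mul_pow, h2]
          _ = (2 * C) ^ 4200 * K ^ (4200 * (1 + C)) := by
            rw [← Real.rpow_natCast (K ^ (1 + C)) 4200, ← Real.rpow_mul hK0.le]
            congr 2
            push_cast
            ring
      rw [h1]
      exact mul_le_mul (by nlinarith) (Real.rpow_le_rpow_of_exponent_le hK1 (by nlinarith))
        (by positivity) (by positivity)
  tfae_have 1 → 4 := by
    rintro ⟨C, hC, h⟩ m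
    obtain ⟨C', hC', hCC', hb⟩ := bound C hC m
    refine ⟨C', hC', fun K A hA hK => ?_⟩
    have hK1 := one_le_of_doubling hA hK
    exact strongPiece_of_covered m hA hK1 (h K A hA hK) hCC' (hb K hK1)
  tfae_have 4 → 3 := by
    intro h
    obtain ⟨C, hC, h2⟩ := h 2
    exact ⟨C, hC, fun K A hA hK => (h2 K A hA hK).piece⟩
  tfae_finish

end Pool.Agent.R934.PF
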