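import Pool.Agent.R934.PF.Hash
import Pool.Agent.TH198.DC.Main

set_option autoImplicit false

/-! From a convex progression which is not much larger than its image to pieces on which the
homomorphism is injective to any given order. -/

open scoped Pointwise

namespace Pool.Agent.R934.PF

open Pool.Agent.TH198.DC

/-- `φ` is injective on the sums of `m` elements of `S` (`S` and its image are Freiman isomorphic
of order `m`) -/
def FInj {n : ℕ} {Γ : Type*} [AddCommGroup Γ] (m : ℕ) (φ : (Fin n → ℤ) →+ Γ)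
    (S : Finset (Fin n → ℤ)) : Prop :=
  ∀ x y : Fin m → Fin n → ℤ, (∀ i, x i ∈ S) → (∀ i, y i ∈ S) →
    φ (∑ i, x i) = φ (∑ i, y i) → ∑ i, x i = ∑ i, y i

theorem mem_LP {d : ℕ} {B : Set (Fin d → ℝ)} {z : Fin d → ℤ} : z ∈ LP B ↔ rv z ∈ B := Iff.rfl

theorem LP_pow {d : ℕ} {B : Set (Fin d → ℝ)} (hB : SB B) (j : ℕ) :
    (LP ((2 ^ j : ℝ) • B)).ncard ≤ 5 ^ (j * d) * (LP B).ncard := by
  induction j with
  | zero => simp
  | succ j ih =>
    have h := hB.grow' (r := (2 ^ j : ℝ)) (by positivity)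
    rw [show (2 ^ (j + 1) : ℝ) = 2 * 2 ^ j by ring]
    calc (LP ((2 * 2 ^ j : ℝ) • B)).ncard ≤ 5 ^ d * (LP ((2 ^ j : ℝ) • B)).ncard := h
      _ ≤ 5 ^ d * (5 ^ (j * d) * (LP B).ncard) := Nat.mul_le_mul_left _ ih
      _ = 5 ^ ((j + 1) * d) * (LP B).ncard := by rw [← mul_assoc, ← pow_add]; congr 2; ring

theorem sum_mem {d : ℕ} {B : Set (Fin d → ℝ)} (hB : SB B) (m : ℕ) (x : Fin m → Fin d → ℤ)
    (hx : ∀ i, x i ∈ LP B) : ∑ i, x i ∈ LP ((m : ℝ) • B) := by
  induction m with
  | zero =>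
    simp only [Finset.univ_eq_empty, Finset.sum_empty]
    show rv 0 ∈ ((0 : ℕ) : ℝ) • B
    rw [rv_zero, Nat.cast_zero, Set.zero_smul_set ⟨0, hB.zero_mem⟩]
    rfl
  | succ m ih =>
    rw [Fin.sum_univ_succ]
    have h1 := ih (fun i => x i.succ) (fun i => hx _)
    have h0 : rv (x 0) ∈ (1 : ℝ) • B := by rw [one_smul]; exact hx 0
    have h2 := hB.add_mem (by norm_num) (Nat.cast_nonneg m) h0 h1
    rw [mem_LP, rv_add, Nat.cast_succ, add_comm (m : ℝ) 1]
    exact h2

/-- the kernel elements in a dilate -/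
noncomputable def Ker {d : ℕ} (φ : (Fin d → ℤ) →+ ℤ) (D : Set (Fin d → ℝ)) (hD : (LP D).Finite) :
    Finset (Fin d → ℤ) := hD.toFinset.filter fun w => φ w = 0

theorem mem_Ker {d : ℕ} {φ : (Fin d → ℤ) →+ ℤ} {D : Set (Fin d → ℝ)} {hD : (LP D).Finite}
    {w : Fin d → ℤ} : w ∈ Ker φ D hD ↔ w ∈ LP D ∧ φ w = 0 := by
  rw [Ker, Finset.mem_filter, Set.Finite.mem_toFinset]

/-- no kernel element is divisible by a large number -/
theorem not_dvd {d : ℕ} {φ : (Fin d → ℤ) →+ ℤ} {D : Set (Fin d → ℝ)} (hDB : SB D)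
    (hD : (LP D).Finite) {p : ℕ} (hp : 0 < p) (hpW : (Ker φ D hD).card < p) {w : Fin d → ℤ}
    (hw : w ∈ Ker φ D hD) (hw0 : w ≠ 0) : ∃ i, ¬ (p : ℤ) ∣ w i := by
  classical
  by_contra hc
  push Not at hc
  choose w' hw' using hc
  have hpw : w = (p : ℤ) • w' := by
    funext i
    rw [Pi.smul_apply, smul_eq_mul]
    exact hw' i
  have hw'0 : w' ≠ 0 := by
    rintro rfl
    exact hw0 (by rw [hpw, smul_zero])
  rw [mem_Ker] at hw
  have hφ : φ w' = 0 := by
    have h1 := hw.2
    rw [hpw, map_zsmul, smul_eq_mul] at h1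
    rcases mul_eq_zero.1 h1 with h2 | h2
    · exact absurd (by exact_mod_cast h2) hp.ne'
    · exact h2
  have hsub : ((Finset.range (p + 1)).image fun k : ℕ => (k : ℤ) • w') ⊆ Ker φ D hD := by
    intro z hz
    obtain ⟨k, hk, rfl⟩ := Finset.mem_image.1 hz
    rw [Finset.mem_range] at hk
    rw [mem_Ker]
    constructor
    · show rv ((k : ℤ) • w') ∈ D
      have h1 : rv ((k : ℤ) • w') = ((k : ℝ) / p) • rv w := by
        funext i
        rw [hpw]
        simp only [rv, Pi.smul_apply, smul_eq_mul]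
        push_cast
        have : (p : ℝ) ≠ 0 := by exact_mod_cast hp.ne'
        field_simp
      rw [h1]
      have h2 : (0 : ℝ) ≤ (k : ℝ) / p := by positivity
      have h3 : (k : ℝ) / p ≤ 1 := by
        rw [div_le_one (by exact_mod_cast hp)]
        exact_mod_cast Nat.lt_succ_iff.1 hk
      exact hDB.conv.smul_mem_of_zero_mem hDB.zero_mem hw.1 ⟨h2, h3⟩
    · rw [map_zsmul, hφ, smul_zero]
  have h1 := Finset.card_le_card hsub
  rw [Finset.card_image_of_injective, Finset.card_range] at h1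
  · omega
  · intro a b hab
    have hab' : (a : ℤ) • w' = (b : ℤ) • w' := hab
    have := smul_left_injective ℤ hw'0 hab'
    exact_mod_cast this

/-- **From a progression to pieces.** -/
theorem exists_piece {d : ℕ} {B : Set (Fin d → ℝ)} (hB : SB B) (φ : (Fin d → ℤ) →+ ℤ)
    {A T : Finset ℤ} (hA : A.Nonempty) {L : ℕ} (hL : (LP B).ncard ≤ L * A.card)
    (hcov : ∀ a ∈ A, ∃ t ∈ T, ∃ x ∈ LP B, a = t + φ x) (m : ℕ) :
    ∃ S : Finset (Fin d → ℤ), ∃ t ∈ T, S.Nonempty ∧ (∀ s ∈ S, s ∈ LP B) ∧ (∀ s ∈ S, t + φ s ∈ A) ∧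
      FInj m φ S ∧ A.card ≤ 2 * 5 ^ ((m + 3) * d) * L * T.card ^ 2 * S.card := by
  classical
  -- the dilate
  have hr : (0 : ℝ) < 2 ^ (m + 1) := by positivity
  have hDB := hB.smul hr
  have hD : (LP ((2 ^ (m + 1) : ℝ) • B)).Finite := hB.fin _
  set W := Ker φ ((2 ^ (m + 1) : ℝ) • B) hD with hW
  -- the popular translate
  choose! τ hτT x hxB hx using hcov
  have hTne : T.Nonempty := by
    obtain ⟨a, ha⟩ := hA
    exact ⟨τ a, hτT a ha⟩
  obtain ⟨t, htT, hcard⟩ := pigeon A T τ hτT hTne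
  set A1 := A.filter (fun a => τ a = t) with hA1
  set S0 := A1.image x with hS0
  have hxinj : Set.InjOn x (A1 : Set ℤ) := by
    intro a ha b hb hab
    rw [Finset.mem_coe, hA1, Finset.mem_filter] at ha hb
    rw [hx a ha.1, hx b hb.1, ha.2, hb.2, hab]
  have hS0c : S0.card = A1.card := Finset.card_image_of_injOn hxinj
  have hφS0 : Set.InjOn φ (S0 : Set (Fin d → ℤ)) := by
    intro u hu v hv huv
    rw [Finset.mem_coe, hS0, Finset.mem_image] at hu hv
    obtain ⟨a, ha, rfl⟩ := hu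
    obtain ⟨b, hb, rfl⟩ := hv
    rw [hA1, Finset.mem_filter] at ha hb
    have : a = b := by rw [hx a ha.1, hx b hb.1, ha.2, hb.2, huv]
    rw [this]
  -- the number of the elements of the kernel
  have hWc : W.card * A1.card ≤ 5 ^ ((m + 2) * d) * (LP B).ncard := by
    have hF : (LP ((2 ^ (m + 2) : ℝ) • B)).Finite := hB.fin _
    have h1 : (W ×ˢ S0).card ≤ hF.toFinset.card := by
      refine Finset.card_le_card_of_injOn (fun q => q.1 + q.2) ?_ ?_
      · rintro ⟨w, s⟩ hq
        rw [Finset.mem_coe, Finset.mem_product] at hq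
        rw [Finset.mem_coe, Set.Finite.mem_toFinset]
        have hw := (mem_Ker.1 hq.1).1
        obtain ⟨a, ha, hs⟩ := Finset.mem_image.1 hq.2
        have hs' : s ∈ LP B := by
          have h0 : x a = s := hs
          rw [← h0]
          exact hxB a (Finset.mem_filter.1 ha).1
        have hs1 : rv s ∈ (1 : ℝ) • B := by rw [one_smul]; exact hs'
        have h2 := hB.add_mem hr.le (by norm_num) hw hs1
        rw [mem_LP, rv_add]
        refine hB.smul_subset (by positivity) ?_ h2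
        have h3 : (1 : ℝ) ≤ 2 ^ (m + 1) := one_le_pow₀ (by norm_num)
        have h4 : (2 : ℝ) ^ (m + 2) = 2 ^ (m + 1) + 2 ^ (m + 1) := by ring
        linarith
      · rintro ⟨w, s⟩ hq ⟨w', s'⟩ hq' heq
        rw [Finset.mem_coe, Finset.mem_product] at hq hq'
        have heq' : w + s = w' + s' := heq
        have h2 := congrArg φ heq'
        rw [map_add, map_add, (mem_Ker.1 hq.1).2, (mem_Ker.1 hq'.1).2, zero_add, zero_add] at h2
        have h3 : s = s' := hφS0 (Finset.mem_coe.2 hq.2) (Finset.mem_coe.2 hq'.2) h2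
        subst h3
        rw [add_right_cancel heq']
    rw [Finset.card_product, hS0c, ← Set.ncard_eq_toFinset_card _ hF] at h1
    exact h1.trans (LP_pow hB (m + 2))
  have hAc : 0 < A.card := hA.card_pos
  have hWT : W.card ≤ 5 ^ ((m + 2) * d) * L * T.card := by
    have h1 : W.card * A.card ≤ (5 ^ ((m + 2) * d) * L * T.card) * A.card := by
      calc W.card * A.card ≤ W.card * (T.card * A1.card) := Nat.mul_le_mul_left _ hcard
        _ = T.card * (W.card * A1.card) := by ring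
        _ ≤ T.card * (5 ^ ((m + 2) * d) * (LP B).ncard) := Nat.mul_le_mul_left _ hWc
        _ ≤ T.card * (5 ^ ((m + 2) * d) * (L * A.card)) := by gcongr
        _ = _ := by ring
    exact Nat.le_of_mul_le_mul_right h1 hAc
  -- the prime
  have h0W : (0 : Fin d → ℤ) ∈ W := by
    rw [hW, mem_Ker]
    refine ⟨?_, map_zero _⟩
    rw [mem_LP, rv_zero]
    exact hDB.zero_mem
  have hWpos : 0 < W.card := Finset.card_pos.2 ⟨0, h0W⟩
  obtain ⟨p, hp, hWp, hp2⟩ := Nat.exists_prime_lt_and_le_two_mul W.card hWpos.ne'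
  have : Fact p.Prime := ⟨hp⟩
  obtain ⟨h, hh⟩ := exists_form (p := p) W hWp fun w hw hw0 => not_dvd hDB hD hp.pos hWp hw hw0
  -- the popular class
  let f : (Fin d → ℤ) → ZMod p := fun z => ∑ i, h i * (z i : ZMod p)
  have hfadd : ∀ y z, f (y - z) = f y - f z := by
    intro y z
    simp only [f, Pi.sub_apply, Int.cast_sub, mul_sub, Finset.sum_sub_distrib]
  have hfsum : ∀ (k : ℕ) (y : Fin k → Fin d → ℤ), f (∑ i, y i) = ∑ i, f (y i) := by
    intro k y
    simp only [f, Finset.sum_apply, Int.cast_sum, Finset.mul_sum]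
    rw [Finset.sum_comm]
  obtain ⟨c, -, hc⟩ := pigeon S0 Finset.univ f (fun _ _ => Finset.mem_univ _) Finset.univ_nonempty
  rw [Finset.card_univ, ZMod.card] at hc
  set S := S0.filter (fun z => f z = c) with hS
  have hcardS : A.card ≤ 2 * 5 ^ ((m + 3) * d) * L * T.card ^ 2 * S.card := by
    calc A.card ≤ T.card * A1.card := hcard
      _ = T.card * S0.card := by rw [hS0c]
      _ ≤ T.card * (p * S.card) := Nat.mul_le_mul_left _ hc
      _ ≤ T.card * ((2 * (5 ^ ((m + 2) * d) * L * T.card)) * S.card) := by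
        gcongr
        omega
      _ = 2 * 5 ^ ((m + 2) * d) * L * T.card ^ 2 * S.card := by ring
      _ ≤ 2 * 5 ^ ((m + 3) * d) * L * T.card ^ 2 * S.card := by
        gcongr
        · norm_num
        · omega
  refine ⟨S, t, htT, ?_, ?_, ?_, ?_, hcardS⟩
  · rw [← Finset.card_pos]
    by_contra hc0
    have : S.card = 0 := by omega
    rw [this, mul_zero] at hcardS
    omega
  · intro s hs
    obtain ⟨a, ha, rfl⟩ := Finset.mem_image.1 (Finset.mem_filter.1 hs).1
    exact hxB a (Finset.mem_filter.1 ha).1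
  · intro s hs
    obtain ⟨a, ha, rfl⟩ := Finset.mem_image.1 (Finset.mem_filter.1 hs).1
    have ha' := Finset.mem_filter.1 ha
    rw [← ha'.2, ← hx a ha'.1]
    exact ha'.1
  · intro y z hy hz hyz
    have hmem : ∀ (u : Fin m → Fin d → ℤ), (∀ i, u i ∈ S) → ∀ i, u i ∈ LP B := by
      intro u hu i
      obtain ⟨a, ha, hau⟩ := Finset.mem_image.1 (Finset.mem_filter.1 (hu i)).1
      have h0 : x a = u i := hau
      rw [← h0]
      exact hxB a (Finset.mem_filter.1 ha).1
    have hys := sum_mem hB m y (hmem y hy)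
    have hzs := sum_mem hB m z (hmem z hz)
    have hdiff : ∑ i, y i - ∑ i, z i ∈ W := by
      rw [hW, mem_Ker]
      constructor
      · rw [mem_LP, rv_sub, sub_eq_add_neg]
        have h1 := hB.add_mem (Nat.cast_nonneg m) (Nat.cast_nonneg m) hys (hB.neg_mem hzs)
        refine hB.smul_subset (by positivity) ?_ h1
        have h2 : (m : ℝ) < 2 ^ m := by exact_mod_cast Nat.lt_two_pow_self
        have h3 : (2 : ℝ) ^ (m + 1) = 2 ^ m + 2 ^ m := by ring
        linarith
      · rw [map_sub, hyz, sub_self]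
    by_contra hne
    apply hh _ hdiff (sub_ne_zero.2 hne)
    have h1 : f (∑ i, y i - ∑ i, z i) = 0 := by
      rw [hfadd, hfsum, hfsum]
      have h2 : ∀ (u : Fin m → Fin d → ℤ), (∀ i, u i ∈ S) → ∑ i, f (u i) = ∑ _i : Fin m, c := by
        intro u hu
        exact Finset.sum_congr rfl fun i _ => (Finset.mem_filter.1 (hu i)).2
      rw [h2 y hy, h2 z hz, sub_self]
    exact h1

end Pool.Agent.R934.PF
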